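import Pool.Agent.X328.GN.Stm

/-! Chain rule for the iterates. -/

set_option autoImplicit false

namespace Pool.Agent.X263.GN

open Finset Polynomial Pool.Agent.X328.GN

universe u

noncomputable section

variable {K : Type u} [Field K]

lemma hm_eval (d : ℕ) (F P Q : K[X]) (hF : F.natDegree ≤ d) (x z : K)
    (hz : P.eval x = z * Q.eval x) :
    (hm d F P Q).eval x = Q.eval x ^ d * F.eval z := by
  rw [hm, eval_finsetSum, eval_eq_sum_range' (Nat.lt_succ_of_le hF), Finset.mul_sum]
  refine Finset.sum_congr rfl fun i hi => ?_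
  have hi' : i ≤ d := Nat.lt_succ_iff.1 (mem_range.1 hi)
  rw [eval_mul, eval_mul, eval_C, eval_pow, eval_pow, hz, mul_pow]
  have : Q.eval x ^ d = Q.eval x ^ i * Q.eval x ^ (d - i) := by
    rw [← pow_add]
    congr 1
    omega
  rw [this]
  ring

lemma hm_deriv_eval (d : ℕ) (F P Q : K[X]) (hF : F.natDegree ≤ d) (x z : K)
    (hz : P.eval x = z * Q.eval x) :
    (derivative (hm d F P Q)).eval x * Q.eval x = Q.eval x ^ d *
      ((derivative F).eval z * (derivative P).eval x +
        (d * F.eval z - z * (derivative F).eval z) * (derivative Q).eval x) := by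
  have hF1 : (derivative F).eval z * z = ∑ i ∈ range (d + 1), (i : K) * (F.coeff i * z ^ i) := by
    rw [derivative_eval, sum_over_range' _ (fun i => by simp) (d + 1) (Nat.lt_succ_of_le hF),
      Finset.sum_mul]
    refine Finset.sum_congr rfl fun i _ => ?_
    rcases i with _ | i
    · simp
    · rw [Nat.add_sub_cancel]
      push_cast
      ring
  have hF2 : (derivative F).eval z = ∑ i ∈ range (d + 1), (i : K) * (F.coeff i * z ^ (i - 1)) := by
    rw [derivative_eval, sum_over_range' _ (fun i => by simp) (d + 1) (Nat.lt_succ_of_le hF)]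
    refine Finset.sum_congr rfl fun i _ => ?_
    ring
  have hF3 : d * F.eval z - z * (derivative F).eval z =
      ∑ i ∈ range (d + 1), ((d : K) - i) * (F.coeff i * z ^ i) := by
    rw [mul_comm z, hF1, eval_eq_sum_range' (Nat.lt_succ_of_le hF), Finset.mul_sum,
      ← Finset.sum_sub_distrib]
    refine Finset.sum_congr rfl fun i _ => ?_
    ring
  rw [hF3, hF2, hm, derivative_sum, eval_finsetSum, Finset.sum_mul, Finset.sum_mul,
    Finset.sum_mul, ← Finset.sum_add_distrib, Finset.mul_sum]
  refine Finset.sum_congr rfl fun i hi => ?_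
  have hi' : i ≤ d := Nat.lt_succ_iff.1 (mem_range.1 hi)
  rw [derivative_mul, derivative_mul, derivative_C, zero_mul, zero_add, derivative_pow,
    derivative_pow]
  simp only [eval_add, eval_mul, eval_C, eval_pow, eval_natCast, hz]
  have e1 : (Nat.cast (d - i) : K) = (d : K) - i := Nat.cast_sub hi'
  rw [e1]
  -- cases i = 0, i = d
  obtain ⟨k, rfl⟩ : ∃ k, d = i + k := ⟨d - i, by omega⟩
  rw [Nat.add_sub_cancel_left]
  push_cast
  rcases i with _ | i
  · rcases k with _ | k
    · simp
    · simp only [Nat.cast_zero, Nat.add_sub_cancel]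
      push_cast
      ring
  · rcases k with _ | k
    · simp only [Nat.cast_zero, Nat.add_sub_cancel]
      push_cast
      ring
    · simp only [Nat.add_sub_cancel]
      push_cast
      ring

/-- one step of the chain rule -/
lemma step_eval (d : ℕ) (u w P Q : K[X]) (hu : u.natDegree ≤ d) (hw : w.natDegree ≤ d) (x z : K)
    (hz : P.eval x = z * Q.eval x) (hQ : Q.eval x ≠ 0) (hwz : w.eval z ≠ 0) :
    (hm d w P Q).eval x ≠ 0 ∧
    (hm d u P Q).eval x = u.eval z / w.eval z * (hm d w P Q).eval x ∧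
    (wrA (hm d u P Q) (hm d w P Q)).eval x / (hm d w P Q).eval x ^ 2 =
      (wrA u w).eval z / w.eval z ^ 2 * ((wrA P Q).eval x / Q.eval x ^ 2) := by
  have h1 := hm_eval d u P Q hu x z hz
  have h2 := hm_eval d w P Q hw x z hz
  have h3 := hm_deriv_eval d u P Q hu x z hz
  have h4 := hm_deriv_eval d w P Q hw x z hz
  have hq : Q.eval x ^ d ≠ 0 := pow_ne_zero _ hQ
  have h5 : (hm d w P Q).eval x ≠ 0 := by
    rw [h2]
    exact mul_ne_zero hq hwz
  refine ⟨h5, ?_, ?_⟩
  · rw [h1, h2]
    field_simp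
  · rw [div_mul_div_comm, div_eq_div_iff (pow_ne_zero _ h5)
      (mul_ne_zero (pow_ne_zero _ hwz) (pow_ne_zero _ hQ))]
    have h6 : (wrA (hm d u P Q) (hm d w P Q)).eval x * Q.eval x =
        Q.eval x ^ d * Q.eval x ^ d * ((wrA u w).eval z *
          ((derivative P).eval x - z * (derivative Q).eval x)) := by
      simp only [wrA, eval_sub, eval_mul]
      rw [sub_mul, h1, h2]
      linear_combination (Q.eval x ^ d * w.eval z) * h3 - (Q.eval x ^ d * u.eval z) * h4
    have h7 : (wrA P Q).eval x = Q.eval x * ((derivative P).eval x - z * (derivative Q).eval x) := by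
      simp only [wrA, eval_sub, eval_mul]
      rw [hz]
      ring
    rw [h7, h2]
    apply mul_right_cancel₀ hQ
    linear_combination (w.eval z ^ 2 * Q.eval x ^ 2) * h6

/-- the multiplier along an orbit -/
lemma it_eval (d : ℕ) (u w : K[X]) (hu : u.natDegree ≤ d) (hw : w.natDegree ≤ d) (z : ℕ → K)
    (hz : ∀ i, z (i + 1) = u.eval (z i) / w.eval (z i)) (hwz : ∀ i, w.eval (z i) ≠ 0) (n : ℕ) :
    (it d u w n).2.eval (z 0) ≠ 0 ∧
    (it d u w n).1.eval (z 0) = z n * (it d u w n).2.eval (z 0) ∧
    (wrA (it d u w n).1 (it d u w n).2).eval (z 0) / (it d u w n).2.eval (z 0) ^ 2 =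
      ∏ m ∈ range n, (wrA u w).eval (z m) / w.eval (z m) ^ 2 := by
  induction n with
  | zero => simp [it, wrA]
  | succ n ih =>
    obtain ⟨h1, h2, h3⟩ := ih
    obtain ⟨h4, h5, h6⟩ := step_eval d u w _ _ hu hw _ _ h2 h1 (hwz n)
    refine ⟨h4, ?_, ?_⟩
    · rw [hz n]
      exact h5
    · rw [Finset.prod_range_succ, mul_comm, ← h3]
      exact h6

end

end Pool.Agent.X263.GN
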