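import Pool.Agent.X328.GN.Stm

/-! Field part of RIG. -/

set_option autoImplicit false

namespace Pool.Agent.X263.GN

open Finset Polynomial Pool.Agent.X328.GN

universe u

noncomputable section

/-- derivative of the numerator in the parameters -/
def Nn {F : Type u} [CommRing F] (d : ℕ) (τ : Ix d → F) : F[X] :=
  ∑ i : Fin (d - 1), C (τ (Sum.inl i)) * X ^ (i.1 + 1)

/-- derivative of the denominator in the parameters -/
def Dd {F : Type u} [CommRing F] (d : ℕ) (τ : Ix d → F) : F[X] :=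
  C (∑ i : Fin (d - 1), τ (Sum.inl i) - ∑ i : Fin (d - 1), τ (Sum.inr i)) +
    ∑ i : Fin (d - 1), C (τ (Sum.inr i)) * X ^ (i.1 + 1)

lemma term_eq {F : Type u} [Field F] [CharZero F] (d : ℕ) (hd : 2 ≤ d) (τ : Ix d → F) (z : F)
    (hz : z ≠ 0) :
    ((derivative (Nn d τ)).eval z * z - d * (Nn d τ).eval z) / z ^ d -
      z * (derivative (Dd d τ)).eval z =
    ∑ j : Fin (d - 1), (-((j.1 : F) + 1) * τ (Sum.inr j)) * z ^ (j.1 + 1) +
      ∑ j : Fin (d - 1), (-((j.1 : F) + 1) * τ (Sum.inl (Fin.rev j))) * (z ^ (j.1 + 1))⁻¹ := by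
  have h1 : (derivative (Nn d τ)).eval z * z - d * (Nn d τ).eval z =
      ∑ i : Fin (d - 1), ((i.1 : F) + 1 - d) * τ (Sum.inl i) * z ^ (i.1 + 1) := by
    rw [Nn, derivative_sum, eval_finsetSum, eval_finsetSum, Finset.sum_mul, Finset.mul_sum,
      ← Finset.sum_sub_distrib]
    refine Finset.sum_congr rfl fun i _ => ?_
    rw [derivative_C_mul_X_pow, eval_mul, eval_C, eval_mul, eval_C, eval_pow, eval_X, eval_pow,
      eval_X, Nat.add_sub_cancel]
    push_cast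
    ring
  have h2 : z * (derivative (Dd d τ)).eval z =
      ∑ i : Fin (d - 1), ((i.1 : F) + 1) * τ (Sum.inr i) * z ^ (i.1 + 1) := by
    rw [Dd, derivative_add, derivative_C, zero_add, derivative_sum, eval_finsetSum,
      Finset.mul_sum]
    refine Finset.sum_congr rfl fun i _ => ?_
    rw [derivative_C_mul_X_pow, eval_mul, eval_C, eval_pow, eval_X, Nat.add_sub_cancel]
    push_cast
    ring
  rw [h1, h2, Finset.sum_div]
  have h3 : ∑ i : Fin (d - 1), ((i.1 : F) + 1 - d) * τ (Sum.inl i) * z ^ (i.1 + 1) / z ^ d =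
      ∑ j : Fin (d - 1), (-((j.1 : F) + 1) * τ (Sum.inl (Fin.rev j))) * (z ^ (j.1 + 1))⁻¹ := by
    rw [← Equiv.sum_comp Fin.revPerm]
    refine Finset.sum_congr rfl fun j _ => ?_
    rw [Fin.revPerm_apply]
    have hj := j.2
    have e1 : (Fin.rev j).1 + 1 = d - 1 - j.1 := by
      rw [Fin.val_rev]
      omega
    have e2 : z ^ d = z ^ (d - 1 - j.1) * z ^ (j.1 + 1) := by
      rw [← pow_add]
      congr 1
      omega
    have e3 : (((Fin.rev j).1 : F) + 1) = (d : F) - 1 - j.1 := by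
      have : (((Fin.rev j).1 + 1 : ℕ) : F) = ((d - 1 - j.1 : ℕ) : F) := by rw [e1]
      rw [Nat.cast_add, Nat.cast_one] at this
      rw [this, Nat.cast_sub (by omega), Nat.cast_sub (by omega), Nat.cast_one]
    rw [e1, e3, e2]
    have h4 : z ^ (d - 1 - j.1) ≠ 0 := pow_ne_zero _ hz
    have h5 : z ^ (j.1 + 1) ≠ 0 := pow_ne_zero _ hz
    field_simp
    ring
  rw [h3]
  have h4 : ∀ x y : F, y - x = -x + y := fun x y => by ring
  rw [h4, ← Finset.sum_neg_distrib]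
  congr 1
  refine Finset.sum_congr rfl fun j _ => ?_
  ring

/-- **Field part of RIG.** -/
theorem field_part (hDIG : S_DIG.{u}) (F : Type u) [Field F] [CharZero F] (d : ℕ) (hd : 2 ≤ d)
    (hsp : (X ^ (d ^ 3) - X : F[X]).Splits) (τ : Ix d → F)
    (H : ∀ ζ : F, ζ ^ (d ^ 3 - 1) = 1 → ∃ y : ℕ → F, y 3 = y 0 ∧
      (∀ i < 3, y (i + 1) = d * (ζ ^ d ^ i) ^ (d - 1) * y i + (Nn d τ).eval (ζ ^ d ^ i) -
        (Dd d τ).eval (ζ ^ d ^ i) * (ζ ^ d ^ i) ^ d) ∧
      ∑ i ∈ range 3, ((derivative (Nn d τ)).eval (ζ ^ d ^ i) +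
        d * (d - 1) * (ζ ^ d ^ i) ^ (d - 2) * y i - d * (ζ ^ d ^ i) ^ (d - 1) *
        (Dd d τ).eval (ζ ^ d ^ i) - (ζ ^ d ^ i) ^ d * (derivative (Dd d τ)).eval (ζ ^ d ^ i)) /
        (d * (ζ ^ d ^ i) ^ (d - 1)) = 0) :
    ∀ i, τ i = 0 := by
  have hd0 : (d : F) ≠ 0 := Nat.cast_ne_zero.mpr (by omega)
  have hd1 : (d : F) - 1 ≠ 0 := by
    rw [sub_ne_zero]
    exact_mod_cast (by omega : d ≠ 1)
  obtain ⟨ha, hb⟩ := hDIG F d hd hsp (fun j => -((j.1 : F) + 1) * τ (Sum.inr j))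
    (fun j => -((j.1 : F) + 1) * τ (Sum.inl (Fin.rev j))) (by
      intro ζ hζ
      obtain ⟨y, hy3, hrec, hsum⟩ := H ζ hζ
      have hζ0 : ζ ≠ 0 := by
        rintro rfl
        rw [zero_pow] at hζ
        · exact zero_ne_one hζ
        · have : 2 ^ 3 ≤ d ^ 3 := Nat.pow_le_pow_left hd 3
          omega
      have hζ3 : ζ ^ d ^ 3 = ζ := by
        have : 2 ^ 3 ≤ d ^ 3 := Nat.pow_le_pow_left hd 3
        have e : d ^ 3 = d ^ 3 - 1 + 1 := by omega
        rw [e, pow_succ, hζ, one_mul]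
      have hz : ∀ i, ζ ^ d ^ i ≠ 0 := fun i => pow_ne_zero _ hζ0
      have hzs : ∀ i, (ζ ^ d ^ i) ^ d = ζ ^ d ^ (i + 1) := fun i => by
        rw [← pow_mul, ← pow_succ]
      have hz1 : ∀ z : F, z ≠ 0 → z ^ (d - 1) = z ^ d / z := fun z h => by
        rw [eq_div_iff h, ← pow_succ]
        congr 1
        omega
      have hz2 : ∀ z : F, z ≠ 0 → z ^ (d - 2) = z ^ d / z / z := fun z h => by
        rw [eq_div_iff h, eq_div_iff h, ← pow_succ, ← pow_succ]
        congr 1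
        omega
      have key : ∀ i ∈ range 3, ∑ j : Fin (d - 1), (-((j.1 : F) + 1) * τ (Sum.inr j)) *
          (ζ ^ d ^ i) ^ (j.1 + 1) +
          ∑ j : Fin (d - 1), (-((j.1 : F) + 1) * τ (Sum.inl (Fin.rev j))) *
            ((ζ ^ d ^ i) ^ (j.1 + 1))⁻¹ =
          d * (((derivative (Nn d τ)).eval (ζ ^ d ^ i) +
        d * (d - 1) * (ζ ^ d ^ i) ^ (d - 2) * y i - d * (ζ ^ d ^ i) ^ (d - 1) *
        (Dd d τ).eval (ζ ^ d ^ i) - (ζ ^ d ^ i) ^ d * (derivative (Dd d τ)).eval (ζ ^ d ^ i)) /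
        (d * (ζ ^ d ^ i) ^ (d - 1))) + d * (y i / ζ ^ d ^ i - y (i + 1) / ζ ^ d ^ (i + 1)) := by
        intro i hi
        rw [← term_eq d hd τ (ζ ^ d ^ i) (hz i), hrec i (mem_range.1 hi), ← hzs,
          hz1 _ (hz i), hz2 _ (hz i)]
        have h1 := hz i
        have h2 : (ζ ^ d ^ i) ^ d ≠ 0 := pow_ne_zero _ h1
        generalize (ζ ^ d ^ i) ^ d = Z at h2 ⊢
        generalize ζ ^ d ^ i = z at h1 ⊢
        field_simp
        ring
      rw [Finset.sum_congr rfl key, Finset.sum_add_distrib, ← Finset.mul_sum, hsum, mul_zero,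
        zero_add, ← Finset.mul_sum, Finset.sum_range_sub', hy3, hζ3, pow_zero, pow_one, sub_self,
        mul_zero])
  have hne : ∀ j : Fin (d - 1), -((j.1 : F) + 1) ≠ 0 := fun j =>
    neg_ne_zero.2 (Nat.cast_add_one_ne_zero _)
  rintro (i | i)
  · have := hb (Fin.rev i)
    simp only [Fin.rev_rev] at this
    exact (mul_eq_zero.1 this).resolve_left (hne _)
  · exact (mul_eq_zero.1 (ha i)).resolve_left (hne _)

end

end Pool.Agent.X263.GN
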