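import Pool.Agent.X328.GN.Stm

/-! Reduction relation for a valuation ring, derivations and polynomials. -/

set_option autoImplicit false

namespace Pool.Agent.X263.GN

open Finset Polynomial Pool.Agent.X328.GN IsLocalRing

universe u

noncomputable section

variable {E : Type u} [Field E] (O : ValuationSubring E)

/-- `a` is in `O` and reduces to `b` -/
def Red (a : E) (b : ResidueField O) : Prop := ∃ o : O, (o : E) = a ∧ residue O o = b

variable {O}

lemma Red.mem {a : E} {b : ResidueField O} (h : Red O a b) : a ∈ O := by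
  obtain ⟨o, rfl, _⟩ := h
  exact o.2

lemma Red.of_mem {a : E} (h : a ∈ O) : ∃ b, Red O a b := ⟨residue O ⟨a, h⟩, ⟨a, h⟩, rfl, rfl⟩

lemma Red.unique {a : E} {b b' : ResidueField O} (h : Red O a b) (h' : Red O a b') : b = b' := by
  obtain ⟨o, ho, rfl⟩ := h
  obtain ⟨o', ho', rfl⟩ := h'
  rw [Subtype.ext (ho.trans ho'.symm)]

lemma Red.zero : Red O (0 : E) 0 := ⟨0, rfl, map_zero _⟩
lemma Red.one : Red O (1 : E) 1 := ⟨1, rfl, map_one _⟩
lemma Red.nat (n : ℕ) : Red O (n : E) n := ⟨n, by simp, map_natCast _ n⟩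

lemma Red.add {a a' : E} {b b' : ResidueField O} (h : Red O a b) (h' : Red O a' b') :
    Red O (a + a') (b + b') := by
  obtain ⟨o, rfl, rfl⟩ := h
  obtain ⟨o', rfl, rfl⟩ := h'
  exact ⟨o + o', rfl, map_add _ _ _⟩

lemma Red.sub {a a' : E} {b b' : ResidueField O} (h : Red O a b) (h' : Red O a' b') :
    Red O (a - a') (b - b') := by
  obtain ⟨o, rfl, rfl⟩ := h
  obtain ⟨o', rfl, rfl⟩ := h'
  exact ⟨o - o', rfl, map_sub _ _ _⟩

lemma Red.mul {a a' : E} {b b' : ResidueField O} (h : Red O a b) (h' : Red O a' b') :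
    Red O (a * a') (b * b') := by
  obtain ⟨o, rfl, rfl⟩ := h
  obtain ⟨o', rfl, rfl⟩ := h'
  exact ⟨o * o', rfl, map_mul _ _ _⟩

lemma Red.pow {a : E} {b : ResidueField O} (h : Red O a b) (n : ℕ) : Red O (a ^ n) (b ^ n) := by
  obtain ⟨o, rfl, rfl⟩ := h
  exact ⟨o ^ n, by simp, map_pow _ _ _⟩

lemma Red.ne_zero {a : E} {b : ResidueField O} (h : Red O a b) (hb : b ≠ 0) : a ≠ 0 := by
  rintro rfl
  exact hb (h.unique Red.zero)

lemma Red.inv {a : E} {b : ResidueField O} (h : Red O a b) (hb : b ≠ 0) : Red O a⁻¹ b⁻¹ := by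
  have ha := h.ne_zero hb
  obtain ⟨o, rfl, rfl⟩ := h
  have hu : IsUnit o := (residue_ne_zero_iff_isUnit o).1 hb
  obtain ⟨v, rfl⟩ := hu
  refine ⟨((v⁻¹ : Oˣ) : O), ?_, ?_⟩
  · apply eq_inv_of_mul_eq_one_left
    have : ((v⁻¹ : Oˣ) : O) * (v : O) = 1 := v.inv_mul
    exact congrArg (Subtype.val) this
  · apply eq_inv_of_mul_eq_one_left
    rw [← map_mul, v.inv_mul, map_one]

lemma Red.div {a a' : E} {b b' : ResidueField O} (h : Red O a b) (h' : Red O a' b')
    (hb : b' ≠ 0) : Red O (a / a') (b / b') := by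
  rw [div_eq_mul_inv, div_eq_mul_inv]
  exact h.mul (h'.inv hb)

lemma Red.sum {ι : Type*} (s : Finset ι) (f : ι → E) (g : ι → ResidueField O)
    (h : ∀ i ∈ s, Red O (f i) (g i)) : Red O (∑ i ∈ s, f i) (∑ i ∈ s, g i) := by
  classical
  induction s using Finset.induction_on with
  | empty => simpa using Red.zero
  | insert a s ha ih =>
    rw [Finset.sum_insert ha, Finset.sum_insert ha]
    exact (h a (mem_insert_self _ _)).add (ih fun i hi => h i (mem_insert_of_mem hi))

/-- the coefficients of `p` reduce to those of `q` -/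
def PRed (O : ValuationSubring E) (p : E[X]) (q : (ResidueField O)[X]) : Prop :=
  ∀ n, Red O (p.coeff n) (q.coeff n)

lemma PRed.eval {p : E[X]} {q : (ResidueField O)[X]} (h : PRed O p q) {a : E}
    {b : ResidueField O} (hab : Red O a b) : Red O (p.eval a) (q.eval b) := by
  have h1 : p.natDegree < max p.natDegree q.natDegree + 1 := Nat.lt_succ_of_le (le_max_left _ _)
  have h2 : q.natDegree < max p.natDegree q.natDegree + 1 := Nat.lt_succ_of_le (le_max_right _ _)
  rw [eval_eq_sum_range' h1, eval_eq_sum_range' h2]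
  exact Red.sum _ _ _ fun i _ => (h i).mul (hab.pow i)

lemma PRed.derivative {p : E[X]} {q : (ResidueField O)[X]} (h : PRed O p q) :
    PRed O (derivative p) (derivative q) := by
  intro n
  rw [coeff_derivative, coeff_derivative]
  exact (h (n + 1)).mul ((Red.nat n).add Red.one)

lemma PRed.map {p : O[X]} : PRed O (p.map O.subtype) (p.map (residue O)) := by
  intro n
  rw [coeff_map, coeff_map]
  exact ⟨p.coeff n, rfl, rfl⟩

lemma charZero_residue (hn : ∀ n : ℕ, n ≠ 0 → (n : E)⁻¹ ∈ O) [CharZero E] :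
    CharZero (ResidueField O) := by
  apply charZero_of_inj_zero
  intro n hn0
  by_contra hne
  obtain ⟨b, hb⟩ := Red.of_mem (hn n hne)
  have h1 := (Red.nat (O := O) n).mul hb
  rw [mul_inv_cancel₀ (Nat.cast_ne_zero.mpr hne), hn0, zero_mul] at h1
  exact zero_ne_one (h1.unique Red.one)

/-! ### derivations -/

/-- the coefficients of `q` are the derivatives of those of `p` -/
def PDer (δ : Derivation ℤ E E) (p q : E[X]) : Prop := ∀ n, q.coeff n = δ (p.coeff n)

lemma PDer.eval {δ : Derivation ℤ E E} {p q : E[X]} (h : PDer δ p q) (x : E) :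
    δ (p.eval x) = q.eval x + (Polynomial.derivative p).eval x * δ x := by
  have h1 : p.natDegree < max p.natDegree q.natDegree + 1 := Nat.lt_succ_of_le (le_max_left _ _)
  have h2 : q.natDegree < max p.natDegree q.natDegree + 1 := Nat.lt_succ_of_le (le_max_right _ _)
  rw [eval_eq_sum_range' h1, eval_eq_sum_range' h2, map_sum, derivative_eval,
    sum_over_range' _ (fun i => by simp) _ h1, Finset.sum_mul, ← Finset.sum_add_distrib]
  refine Finset.sum_congr rfl fun i _ => ?_
  rw [Derivation.leibniz, Derivation.leibniz_pow, h i]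
  simp only [smul_eq_mul, nsmul_eq_mul]
  ring

lemma PDer.derivative {δ : Derivation ℤ E E} {p q : E[X]} (h : PDer δ p q) :
    PDer δ (Polynomial.derivative p) (Polynomial.derivative q) := by
  intro n
  rw [coeff_derivative, coeff_derivative, Derivation.leibniz, h (n + 1)]
  have : δ ((n : E) + 1) = 0 := by
    rw [map_add, Derivation.map_natCast, Derivation.map_one_eq_zero, add_zero]
  rw [this, smul_zero, zero_add, smul_eq_mul, mul_comm]

end

end Pool.Agent.X263.GN
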